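import Mathlib

set_option autoImplicit false
open Set Function Topology Filter TopologicalSpace

namespace Pool.Agent.H.MP_188e7a

section gen
variable {W κ : Type} (Ψ : W → κ → ℝ)

abbrev tt (I : Set κ) : TopologicalSpace W := ⨅ i ∈ I, induced (Ψ · i) inferInstance

noncomputable abbrev lin (c : κ →₀ ℝ) (w : W) : ℝ := Finsupp.linearCombination ℝ (Ψ w) c

lemma tt_mono {I J : Set κ} (h : I ⊆ J) : tt Ψ J ≤ tt Ψ I := biInf_mono h

lemma co {I : Set κ} {i : κ} (h : i ∈ I) : Continuous[tt Ψ I, _] (Ψ · i) :=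
  continuous_iInf_dom (continuous_iInf_dom (i := h) continuous_induced_dom)

lemma linc {I : Set κ} {c : κ →₀ ℝ} (h : ↑c.support ⊆ I) : Continuous[tt Ψ I, _] (lin Ψ c) := by
  let := tt Ψ I
  exact continuous_finsetSum _ fun i hi => (continuous_const (y := c i)).mul (co Ψ (h hi))

lemma nh (I : Set κ) (w : W) :
    @nhds _ (tt Ψ I) w = ⨅ i ∈ I, comap (Ψ · i) (𝓝 (Ψ w i)) := by
  simp only [nhds_iInf, nhds_induced]

lemma opn {I J : Set κ} (h : I ⊆ J) {F H : Filter W} (hF : F.bind (@nhds _ (tt Ψ I)) ≤ F)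
    [H.NeBot] (hH : H ≤ F) : ∃ G : Filter W, G.NeBot ∧ G.bind (@nhds _ (tt Ψ J)) ≤ G ∧ G ≤ F ∧
      ∀ U ∈ H, IsOpen[tt Ψ J] U → U ∈ G := by
  have m : ∀ w, @nhds _ (tt Ψ J) w ≤ @nhds _ (tt Ψ I) w := fun w => nhds_mono (tt_mono Ψ h)
  let := tt Ψ J
  refine ⟨H.bind 𝓝, NeBot.mono ‹_› fun s hs => mem_of_superset (mem_bind'.1 hs) fun w hw =>
    mem_of_mem_nhds hw, fun s hs => mem_bind'.2 (mem_bind'.2 (mem_of_superset (mem_bind'.1 hs)
    fun w hw => eventually_eventually_nhds.2 hw)), (bind_mono hH (.of_forall m)).trans hF,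
    fun U hU o => mem_bind'.2 (mem_of_superset hU fun w hw => o.mem_nhds hw)⟩

lemma step (hΨ : DenseRange Ψ) {I : Set κ} {ξ : κ} (hξ : ξ ∉ I) {F : Filter W} [F.NeBot]
    (hF : F.bind (@nhds _ (tt Ψ I)) ≤ F) (H : W → Filter ℝ) [∀ w, (H w).NeBot] :
    ∃ G : Filter W, G.NeBot ∧ G.bind (@nhds _ (tt Ψ (insert ξ I))) ≤ G ∧ G ≤ F ∧
      ∀ g : W → ℝ, Continuous[tt Ψ I, _] g → ∀ V : Set ℝ, IsOpen V →
        (∀ w, ∀ᶠ t in H w, t - g w ∈ V) → ∀ᶠ w in G, Ψ w ξ - g w ∈ V := by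
  classical
  let L : W → ℝ → Filter W := fun w t => comap Ψ (𝓝 (update (Ψ w) ξ t))
  have l1 : ∀ w t, (L w t).NeBot := fun w t => comap_neBot fun s hs => hΨ.mem_nhds hs
  have l0 : ∀ w t i, Tendsto (Ψ · i) (L w t) (𝓝 (update (Ψ w) ξ t i)) := fun w t i =>
    ((continuous_apply i).tendsto _).comp tendsto_comap
  have l2 : ∀ w t, L w t ≤ @nhds _ (tt Ψ I) w := fun w t => by
    rw [nh]
    refine le_iInf₂ fun i hi => Tendsto.le_comap ?_
    simpa [update_of_ne (ne_of_mem_of_not_mem hi hξ)] using l0 w t i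
  have : (F.bind fun w => (H w).bind (L w)).NeBot := ⟨fun h => by
    obtain ⟨w, hw⟩ := Filter.nonempty_of_mem (mem_bind'.1 (empty_mem_iff_bot.2 h))
    obtain ⟨t, ht⟩ := Filter.nonempty_of_mem (mem_bind'.1 (show ∅ ∈ (H w).bind (L w) from hw))
    exact (l1 w t).ne (empty_mem_iff_bot.1 ht)⟩
  obtain ⟨G, g1, g2, g3, g4⟩ := opn Ψ (subset_insert ξ I) hF (H := F.bind fun w => (H w).bind (L w))
    ((bind_mono le_rfl (.of_forall fun w s hs => (mem_bind' (m := L w)).2 (univ_mem' fun t =>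
      l2 w t hs))).trans hF)
  refine ⟨G, g1, g2, g3, fun g hg V hV h => g4 _ (mem_bind'.2 (univ_mem' fun w => mem_bind'.2
    ((h w).mono fun t ht => ?_))) ?_⟩
  · have := (@Continuous.tendsto _ _ (tt Ψ I) _ _ hg w).mono_left (l2 w t)
    exact ((l0 w t ξ).sub this) (hV.mem_nhds (by simpa using ht))
  · have e := continuous_le_dom (tt_mono Ψ (subset_insert ξ I)) hg
    let := tt Ψ (insert ξ I)
    exact hV.preimage ((co Ψ (mem_insert _ _)).sub e)
end gen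

lemma gen {W Ω Γ : Type} [Countable W] [Nonempty W] [LinearOrder Ω] [WellFoundedLT Ω]
    (hΩ : ∀ s : Set Ω, s.Countable → ∃ a, ∀ x ∈ s, x < a) (Ψ : W → Ω × Γ → ℝ)
    (hΨ : DenseRange Ψ) (s : Γ → W → ℝ) (hs : Surjective s) : ∃ F : Filter W, F.NeBot ∧
      (∀ c, c ≠ 0 → Tendsto (fun w => |lin Ψ c w|) F atTop) ∧ ∀ g : W → ℝ,
        Continuous[induced Ψ inferInstance, _] g → ∃ c n, ∀ᶠ w in F, |g w - lin Ψ c w| < n := by
  classical
  let P : Set (Set (Ω × Γ) × (Filter W)ᵒᵈ) := {p | (show Filter W from p.2).NeBot ∧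
    (show Filter W from p.2).bind (@nhds _ (tt Ψ p.1)) ≤ (show Filter W from p.2) ∧
    (∀ c, c ≠ 0 → ↑c.support ⊆ p.1 → Tendsto (fun w => |lin Ψ c w|) p.2 atTop) ∧
    ∀ ξ ∈ p.1, Continuous[tt Ψ {i | i.1 < ξ.1}, _] (s ξ.2) →
      ∃ c n, ∀ᶠ w in (show Filter W from p.2), |s ξ.2 w - lin Ψ c w| < n}
  obtain ⟨⟨I, F⟩, ⟨f1, f2, f3, f4⟩, hm⟩ := zorn_le₀ P fun C hC hc => by
    have m : ∀ p ∈ C, (⨅ p : C, (show Filter W from p.1.2)) ≤ (show Filter W from p.2) :=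
      fun p hp => iInf_le (fun p : C => (show Filter W from p.1.2)) ⟨p, hp⟩
    refine ⟨(⋃ p ∈ C, p.1, (⨅ p : C, (show Filter W from p.1.2) :)), ⟨iInf_neBot_of_directed
      (fun p q => ?_) fun p => (hC p.2).1, le_iInf fun p => (bind_mono (m _ p.2) (.of_forall
        fun w => nhds_mono (tt_mono Ψ (subset_biUnion_of_mem p.2)))).trans (hC p.2).2.1,
      fun c h0 h => ?_, fun ξ h hg => ?_⟩, fun p hp => ⟨subset_biUnion_of_mem hp, m p hp⟩⟩
    · obtain ⟨r, h, h1, h2⟩ := hc.directedOn p.1 p.2 q.1 q.2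
      exact ⟨⟨r, h⟩, h1.2, h2.2⟩
    · obtain ⟨i, hi⟩ := Finsupp.support_nonempty_iff.2 h0
      obtain ⟨p, hp, -⟩ := mem_iUnion₂.1 (h hi)
      obtain ⟨q, hq, e⟩ := DirectedOn.exists_mem_subset_of_finset_subset_biUnion ⟨p, hp⟩
        (f := fun p => p.1) (hc.directedOn.mono fun _ _ h => h.1) h
      exact ((hC hq).2.2.1 c h0 e).mono_left (m q hq)
    · obtain ⟨p, hp, e⟩ := mem_iUnion₂.1 h
      obtain ⟨c, n, e⟩ := (hC hp).2.2.2 ξ e hg
      exact ⟨c, n, m p hp e⟩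
  change Filter W at F
  dsimp only at f1 f2 f3 f4
  have hI : ∀ ξ, ξ ∈ I := by
    by_contra hn
    obtain ⟨_, ⟨ξ, hξ, rfl⟩, hmin⟩ := WellFounded.has_min wellFounded_lt (Prod.fst '' Iᶜ)
      (Set.Nonempty.image _ (not_forall.1 hn))
    have hJ : {i | i.1 < ξ.1} ⊆ I := fun i hi => by_contra fun h => hmin _ ⟨i, h, rfl⟩ hi
    suffices ∃ G : Filter W, G.NeBot ∧ G.bind (@nhds _ (tt Ψ (insert ξ I))) ≤ G ∧ G ≤ F ∧
        (∀ c, ↑c.support ⊆ I → Tendsto (fun w => |Ψ w ξ - lin Ψ c w|) G atTop) ∧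
        (Continuous[tt Ψ I, _] (s ξ.2) → ∃ c n, ∀ᶠ w in G, |s ξ.2 w - lin Ψ c w| < n) by
      obtain ⟨G, g1, g2, g3, g4, g5⟩ := this
      refine hξ ((hm (y := (insert ξ I, G)) ⟨g1, g2, fun c h0 h => ?_, ?_⟩
        ⟨subset_insert _ _, g3⟩).1 (mem_insert _ _))
      · have e : ↑(c.erase ξ).support ⊆ I := fun i hi => by
          simp only [Finsupp.support_erase, Finset.coe_erase] at hi
          exact (h hi.1).resolve_left hi.2
        by_cases ha : c ξ = 0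
        · rw [Finsupp.erase_of_notMem_support (by simpa)] at e
          exact (f3 c h0 e).mono_left g3
        · refine ((g4 (-(c ξ)⁻¹ • c.erase ξ) ((Finset.coe_subset.2 Finsupp.support_smul).trans
            e)).const_mul_atTop (abs_pos.2 ha)).congr fun w => ?_
          rw [← abs_mul]
          nth_rw 4 [← Finsupp.single_add_erase ξ c]
          simp only [lin, map_smul, map_add, Finsupp.linearCombination_single, smul_eq_mul]
          congr 1
          field_simp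
          ring
      · rintro η (rfl | h) hg
        · exact g5 (continuous_le_dom (tt_mono Ψ hJ) hg)
        · obtain ⟨c, n, e⟩ := f4 η h hg
          exact ⟨c, n, g3 e⟩
    by_cases h : Continuous[tt Ψ I, _] (s ξ.2) ∧
      ∀ c, ↑c.support ⊆ I → Tendsto (fun w => |s ξ.2 w - lin Ψ c w|) F atTop
    · obtain ⟨G, g1, g2, g3, g4⟩ := step Ψ hΨ hξ f2 fun w => pure (s ξ.2 w)
      have e := g4 _ h.1 _ (isOpen_Ioo (a := -1) (b := 1)) (by simp)
      refine ⟨G, g1, g2, g3, fun c hc => tendsto_atTop_mono' _ (e.mono fun w hw => ?_)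
        (tendsto_atTop_add_const_right _ (-1) ((h.2 c hc).mono_left g3)), fun _ =>
        ⟨.single ξ 1, 1, e.mono fun w hw => by simpa [abs_sub_comm] using abs_lt.2 hw⟩⟩
      linarith [abs_sub_le (s ξ.2 w) (Ψ w ξ) (lin Ψ c w), abs_sub_comm (s ξ.2 w) (Ψ w ξ), abs_lt.2 hw]
    · obtain ⟨G, g1, g2, g3, g4⟩ := step Ψ hΨ hξ f2 fun w => atTop
      refine ⟨G, g1, g2, g3, fun c hc => tendsto_abs_atTop_atTop.comp (tendsto_atTop.2 fun a =>
        (g4 _ (linc Ψ hc) _ (isOpen_Ioi (a := a)) fun w => (tendsto_atTop_add_const_right _ _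
          tendsto_id).eventually (Ioi_mem_atTop a)).mono fun w hw => le_of_lt hw), fun hg => ?_⟩
      simp only [hg, true_and, not_forall, tendsto_atTop, not_eventually, not_le] at h
      obtain ⟨c, hc, n, h⟩ := h
      have := frequently_iff_neBot.1 h
      obtain ⟨G', k1, k2, k3, k4⟩ := opn Ψ Subset.rfl f2 (H := F ⊓ 𝓟 {w | |s ξ.2 w - lin Ψ c w| < n})
        inf_le_left
      refine ⟨c, n, g3 ((hm (y := (I, G')) ⟨k1, k2, fun c h0 h => (f3 c h0 h).mono_left k3,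
        fun η h hg => (f4 η h hg).imp fun c => Exists.imp fun n e => k3 e⟩ ⟨le_rfl, k3⟩).2 (k4 _
          (mem_inf_of_right (mem_principal_self _)) ?_))⟩
      have e := linc Ψ hc
      let := tt Ψ I
      exact isOpen_lt (hg.sub e).abs continuous_const
  refine ⟨F, f1, fun c h => f3 c h fun i _ => hI i, fun g hg => ?_⟩
  obtain ⟨γ, rfl⟩ := hs g
  set g := s γ
  have : ∀ p : W × ℕ, ∃ t : Finset (Ω × Γ), g ⁻¹' Metric.ball (g p.1) (1 / (p.2 + 1)) ∈
      @nhds _ (tt Ψ t) p.1 := fun p => by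
    have := @Continuous.tendsto _ _ (induced Ψ inferInstance) _ _ hg p.1 _
      (Metric.ball_mem_nhds _ (Nat.one_div_pos_of_nat (n := p.2)))
    rw [nhds_induced, nhds_pi, Filter.pi, comap_iInf, mem_map, mem_iInf_finite] at this
    simpa only [nh, comap_comap, Finset.mem_coe, comp_def, eval] using this
  choose t ht using this
  obtain ⟨a, ha⟩ := hΩ _ ((countable_iUnion fun p => (t p).countable_toSet).image Prod.fst)
  refine f4 (a, γ) (hI _) ?_
  have m := fun p => nhds_mono (a := p.1) (tt_mono Ψ (J := {i | i.1 < a}) fun i hi => ha _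
    ⟨i, mem_iUnion.2 ⟨p, hi⟩, rfl⟩) (ht p)
  let := tt Ψ {i | i.1 < a}
  exact continuous_iff_continuousAt.2 fun w =>
    Metric.nhds_basis_ball_inv_nat_succ.tendsto_right_iff.2 fun n _ => m (w, n)

end Pool.Agent.H.MP_188e7a
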