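import Pool.Agent.H.MP_188e7a.A

set_option autoImplicit false
open Set Function Topology Filter TopologicalSpace

namespace Pool.Agent.H.MP_188e7a

abbrev pt (X : Type) [TopologicalSpace X] : TopologicalSpace C(X, ℝ) :=
  TopologicalSpace.induced (fun f : C(X, ℝ) => (f : X → ℝ)) Pi.topologicalSpace

def Cond (X Y : Type) [TopologicalSpace X] [TopologicalSpace Y] : Prop :=
  ∃ T : C(X, ℝ) →ₗ[ℝ] C(Y, ℝ), (∀ y, Continuous[pt X, _] fun f => T f y) ∧ Bijective T

lemma ev {X : Type} [TopologicalSpace X] (x : X) : Continuous[pt X, _] fun f : C(X, ℝ) => f x :=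
  @Continuous.comp _ _ _ (pt X) _ _ _ _ (continuous_apply x) continuous_induced_dom

def pre {X Y : Type} [TopologicalSpace X] [TopologicalSpace Y] (r : C(Y, X)) :
    C(X, ℝ) →ₗ[ℝ] C(Y, ℝ) where
  toFun f := f.comp r
  map_add' _ _ := rfl
  map_smul' _ _ := rfl

lemma prec {X Y : Type} [TopologicalSpace X] [TopologicalSpace Y] (r : C(Y, X)) :
    Continuous[pt X, pt Y] (pre r) := by
  let := pt X
  exact continuous_induced_rng.2 (continuous_pi fun y => ev (r y))

lemma Cond.refl (X : Type) [TopologicalSpace X] : Cond X X := ⟨.id, ev, bijective_id⟩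

lemma Cond.sigma {ι : Type} {A B : ι → TopCat.{0}} (e : ι ≃ ι) (h : ∀ k, Cond (A (e k)) (B k)) :
    Cond (Σ k, A k) (Σ k, B k) := by
  choose T t1 t2 using h
  refine ⟨⟨⟨fun f => .sigma fun k => T k (pre (.sigmaMk (e k)) f), fun f g => ?_⟩, fun c f => ?_⟩,
    fun y => @Continuous.comp _ _ _ (pt _) (pt _) _ _ _ (t1 y.1 y.2) (prec _),
    (injective_iff_map_eq_zero _).2 fun f hf => ?_, fun g => ?_⟩
  · ext y
    simp
  · ext y
    simp
  · ext ⟨j, x⟩
    obtain ⟨k, rfl⟩ := e.surjective j
    exact congrArg (· x) ((injective_iff_map_eq_zero _).1 (t2 k).1 (pre (.sigmaMk (e k)) f)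
      (by ext y; exact congrArg (· ⟨k, y⟩) hf))
  · choose f hf using fun k => (t2 k).2 (g.comp (.sigmaMk (X := fun k => B k) k))
    refine ⟨.sigma (e.piCongrLeft (fun j => C(A j, ℝ)) f), ?_⟩
    ext ⟨k, y⟩
    refine (congrArg (T k · y) ?_).trans (congrArg (· y) (hf k))
    ext x
    exact congrArg (· x) (e.piCongrLeft_apply_apply (fun j => C(A j, ℝ)) f k)

lemma t35s {ι : Type} (A : ι → TopCat.{0}) [∀ k, T35Space (A k)] : T35Space (Σ k, A k) := by
  classical
  have : CompletelyRegularSpace (Σ k, A k) := ⟨fun ⟨i, a⟩ K hK ha => by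
    obtain ⟨f, f1, f2, f3⟩ := CompletelyRegularSpace.completely_regular a _
      (hK.preimage (continuous_sigmaMk (σ := fun k => A k))) ha
    refine ⟨ContinuousMap.sigma (update (fun j => (1 : C(A j, unitInterval))) i ⟨f, f1⟩),
      ContinuousMap.continuous _, by simpa, fun ⟨j, y⟩ hy => ?_⟩
    by_cases h : j = i
    · subst h
      simpa using f3 hy
    · simp [update_of_ne h]⟩
  exact {}

lemma swindle (K Y D : TopCat.{0}) [T35Space K] [T35Space Y] [T35Space D] [SigmaCompactSpace K]
    [SigmaCompactSpace D] (hY : ¬ SigmaCompactSpace Y) (h1 : Cond K Y) (h2 : Cond Y D) :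
    ∃ X Z : TopCat.{0}, T35Space X ∧ T35Space Z ∧ SigmaCompactSpace X ∧ ¬ SigmaCompactSpace Z ∧
      Cond X Z ∧ Cond Z X := by
  let A : ℤ → TopCat.{0} := fun k => if 0 ≤ k then K else D
  let B : ℤ → TopCat.{0} := fun k => if 0 < k then K else if k = 0 then Y else D
  have a1 : ∀ k, 0 ≤ k → A k = K := fun k h => if_pos h
  have a2 : ∀ k, k < 0 → A k = D := fun k h => if_neg h.not_ge
  have b1 : ∀ k, 0 < k → B k = K := fun k h => if_pos h
  have b2 : ∀ k, k < 0 → B k = D := fun k h => (if_neg h.not_gt).trans (if_neg h.ne)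
  have : ∀ k, T35Space (A k) := fun k => by
    rcases le_or_gt 0 k with h | h
    · rwa [a1 k h]
    · rwa [a2 k h]
  have : ∀ k, T35Space (B k) := fun k => by
    rcases lt_trichotomy k 0 with h | rfl | h
    · rwa [b2 k h]
    · assumption
    · rwa [b1 k h]
  have : ∀ k, SigmaCompactSpace (A k) := fun k => by
    rcases le_or_gt 0 k with h | h
    · rwa [a1 k h]
    · rwa [a2 k h]
  refine ⟨.of (Σ k, A k), .of (Σ k, B k), t35s A, t35s B, inferInstanceAs
    (SigmaCompactSpace (Σ k, A k)), fun h => hY ?_, .sigma (.refl _) fun k => ?_,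
    .sigma (.addRight 1) fun k => ?_⟩
  · exact (IsClosedEmbedding.sigmaMk (σ := fun k => B k) (i := 0)).sigmaCompactSpace
  · change Cond (A k) (B k)
    rcases lt_trichotomy k 0 with h | rfl | h
    · rw [b2 k h, a2 _ h]
      exact .refl _
    · exact h1
    · rw [b1 k h, a1 _ h.le]
      exact .refl _
  · change Cond (B (k + 1)) (A k)
    rcases lt_trichotomy k (-1) with h | rfl | h
    · rw [b2 _ (show k + 1 < 0 by omega), a2 k (by omega)]
      exact .refl _
    · exact h2
    · rw [b1 _ (show 0 < k + 1 by omega), a1 k (by omega)]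
      exact .refl _

lemma glue {B D : Type} [TopologicalSpace B] [TopologicalSpace D] [Countable D]
    (L : C(B, ℝ) →ₗ[ℝ] C(D, ℝ)) (hL : ∀ d, Continuous[pt B, _] fun b => L b d) (F : Filter D)
    [F.NeBot] (h1 : ∀ b, b ≠ 0 → Tendsto (fun d => |L b d|) F atTop)
    (h2 : ∀ g : C(D, ℝ), ∃ b n, ∀ᶠ d in F, |g d - L b d| < n) :
    ∃ V : Set (StoneCech D), V.Countable ∧ Cond (B ⊕ V) D := by
  let q := Ultrafilter.of F
  let p := (q.map stoneCechUnit).lim
  have hp : Tendsto stoneCechUnit q (𝓝 p) := (q.map stoneCechUnit).le_nhds_lim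
  let V := insert p (range stoneCechUnit)
  let j : C(D, V) := ⟨fun d => ⟨stoneCechUnit d, Or.inr ⟨d, rfl⟩⟩,
    continuous_stoneCechUnit.subtype_mk _⟩
  have hj : Tendsto j q (𝓝 ⟨p, Or.inl rfl⟩) := tendsto_subtype_rng.2 hp
  let l : C(B, B ⊕ V) := ⟨Sum.inl, continuous_inl⟩
  let r : C(V, B ⊕ V) := ⟨Sum.inr, continuous_inr⟩
  refine ⟨V, (countable_range _).insert _, pre (r.comp j) + L ∘ₗ pre l, fun d => ?_,
    (injective_iff_map_eq_zero _).2 fun f hf => ?_, fun g => ?_⟩
  · have e := @Continuous.comp _ _ _ (pt _) (pt _) _ _ _ (hL d) (prec l)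
    let := pt (B ⊕ V)
    exact (ev _).add e
  · have e : ∀ d, f (r (j d)) + L (pre l f) d = 0 := fun d => congrArg (· d) hf
    have t := ((f.comp r).continuous.tendsto _).comp hj
    have e' : pre l f = 0 := by_contra fun hn => not_tendsto_nhds_of_tendsto_atTop
      ((h1 _ hn).mono_left (Ultrafilter.of_le F)) _ (t.neg.abs.congr fun d =>
        congrArg abs (neg_eq_of_add_eq_zero_right (e d)))
    simp only [e', map_zero, ContinuousMap.zero_apply, add_zero] at e
    ext z
    rcases z with z | ⟨_, rfl | ⟨d, rfl⟩⟩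
    · exact congrArg (· z) e'
    · exact tendsto_nhds_unique t (tendsto_const_nhds.congr fun d => (e d).symm)
    · exact e d
  · obtain ⟨b, n, h⟩ := h2 g
    have c := continuous_coe_real_ereal.comp (g - L b).continuous
    have m : stoneCechExtend c p ∈ Icc ((-n : ℝ) : EReal) (n : ℝ) := isClosed_Icc.mem_of_tendsto
      (((continuous_stoneCechExtend c).tendsto p).comp hp) (mem_of_superset (Ultrafilter.of_le F h)
        fun d hd => by
          have := abs_lt.1 (show |g d - L b d| < n from hd)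
          simp only [comp, mem_ofPred_eq, stoneCechExtend_stoneCechUnit, mem_Icc, EReal.coe_le_coe_iff]
          exact ⟨this.1.le, this.2.le⟩)
    have c' : Continuous fun z : V => (stoneCechExtend c z).toReal :=
      EReal.continuousOn_toReal.comp_continuous ((continuous_stoneCechExtend c).comp
        continuous_subtype_val) (by
          rintro ⟨_, rfl | ⟨d, rfl⟩⟩
          · exact not_or.2 ⟨((EReal.bot_lt_coe _).trans_le m.1).ne',
              (m.2.trans_lt (EReal.coe_lt_top _)).ne⟩
          · simp [← EReal.coe_sub])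
    refine ⟨⟨Sum.elim b _, b.continuous.sumElim c'⟩, ?_⟩
    ext d
    change (stoneCechExtend c (stoneCechUnit d)).toReal + L b d = g d
    simp [← EReal.coe_sub]

end Pool.Agent.H.MP_188e7a
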