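import Pool.Agent.H.MP_188e7a.B

set_option autoImplicit false
open Set Function Topology Filter TopologicalSpace Cardinal

namespace Pool.Agent.H.MP_188e7a

abbrev B : Type := {r : Ultrafilter ℕ // r ≠ hyperfilter ℕ}

def nn (n : ℕ) : B := ⟨pure n, fun h => (finite_singleton n).notMem_hyperfilter
  (h ▸ Ultrafilter.mem_pure.2 rfl)⟩

lemma nd : DenseRange nn := fun r => by
  rw [IsEmbedding.subtypeVal.isInducing.closure_eq_preimage_closure_image, ← range_comp]
  exact denseRange_pure r.1

lemma bext (a : ℕ → ℝ) (M : ℝ) (h : ∀ n, |a n| ≤ M) :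
    ∃ g : C(Ultrafilter ℕ, ℝ), ∀ n, g (pure n) = a n :=
  ⟨⟨_, continuous_subtype_val.comp (continuous_ultrafilter_extend fun n =>
    (⟨a n, abs_le.1 (h n)⟩ : Icc (-M) M))⟩, fun n => by simp⟩

lemma ext (f : C(B, ℝ)) : ∃ g : C(Ultrafilter ℕ, ℝ), ∀ r : B, g r = f r := by
  obtain ⟨M, hM⟩ : ∃ M, ∀ n, |f (nn n)| ≤ M := by
    by_contra hc
    obtain ⟨φ, φ1, φ2⟩ := extraction_forall_of_frequently (P := fun k n => (k : ℝ) ≤ |f (nn n)|)
      fun k => by
        by_contra h
        obtain ⟨m, hm⟩ := eventually_atTop.1 (not_frequently.1 h)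
        obtain ⟨M, hM⟩ := ((finite_Iio m).image fun n => |f (nn n)|).bddAbove
        exact hc ⟨max M k, fun n => (lt_or_ge n m).elim (fun h => le_max_of_le_left
          (hM ⟨n, h, rfl⟩)) fun h => le_max_of_le_right (not_le.1 (hm n h)).le⟩
    have : ∀ i, (hyperfilter ℕ).map (fun k => φ (2 * k + i)) = hyperfilter ℕ := fun i => by
      by_contra h
      have t : Tendsto nn ((hyperfilter ℕ).map fun k => φ (2 * k + i)) (𝓝 ⟨_, h⟩) :=
        tendsto_subtype_rng.2 (Ultrafilter.tendsto_pure_self _)
      refine not_tendsto_nhds_of_tendsto_atTop ?_ _ ((f.continuous.tendsto _).comp t).abs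
      exact tendsto_map'_iff.2 (tendsto_atTop_mono (f := fun k : ℕ => (k : ℝ))
        (fun k => (Nat.cast_le.2 (by omega)).trans (φ2 (2 * k + i)))
        (tendsto_natCast_atTop_atTop.mono_left Nat.hyperfilter_le_atTop))
    have m : ∀ i, range (fun k => φ (2 * k + i)) ∈ hyperfilter ℕ := fun i =>
      this i ▸ range_mem_map
    obtain ⟨_, ⟨a, rfl⟩, b, hb⟩ := Ultrafilter.nonempty_of_mem (inter_mem (m 0) (m 1))
    have := φ1.injective hb
    omega
  obtain ⟨g, hg⟩ := bext _ M hM
  exact ⟨g, congrFun (nd.equalizer (g.continuous.comp continuous_subtype_val) f.continuous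
    (funext hg))⟩

lemma nsc : ¬ SigmaCompactSpace B := fun _ => by
  obtain ⟨K, k1, k2⟩ := isSigmaCompact_range (continuous_subtype_val : Continuous
    (Subtype.val : B → _))
  obtain ⟨f, f1, -⟩ := exists_continuous_one_zero_of_isCompact_of_isGδ
    (s := {hyperfilter ℕ}) isCompact_singleton (by
      rw [← compl_compl {hyperfilter ℕ}, show {hyperfilter ℕ}ᶜ = ⋃ n, K n by
        rw [k2]; exact Subtype.range_coe.symm, compl_iUnion]
      exact .iInter_of_isOpen fun n => (k1 n).isClosed.isOpen_compl) isClosed_empty (by simp)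
  have e : ∀ r : B, 1 - f r ≠ 0 := fun r h => r.2 (f1.ge (sub_eq_zero.1 h).symm)
  obtain ⟨g, hg⟩ := ext ⟨fun r => (1 - f r)⁻¹, Continuous.inv₀ (by fun_prop) e⟩
  have := congrFun (denseRange_pure.equalizer (g := fun r => (1 - f r) * g r) (h := fun _ => 1)
    (by fun_prop) continuous_const (funext fun n => (congrArg _ (hg (nn n))).trans
      (mul_inv_cancel₀ (e (nn n))))) (hyperfilter ℕ)
  have e : f (hyperfilter ℕ) = 1 := f1.le rfl
  simp [e] at this

def res : C(B, ℝ) →ₗ[ℝ] ℕ → ℝ where
  toFun f n := f (nn n)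
  map_add' _ _ := rfl
  map_smul' _ _ := rfl

lemma resi : Injective res := fun f g h =>
  DFunLike.coe_injective (nd.equalizer f.continuous g.continuous h)

lemma rk : Module.rank ℝ C(B, ℝ) = 𝔠 := by
  refine le_antisymm ((rank_le_card _ _).trans ((mk_le_of_injective resi).trans (by simp [mk_real]))) ?_
  choose g hg using fun t : Icc (0 : ℝ) 1 => bext (fun n => t.1 ^ n) 1 fun n =>
    (abs_pow _ _).trans_le (pow_le_one₀ (abs_nonneg _) (abs_le.2 ⟨by linarith [t.2.1], t.2.2⟩))
  rw [← mk_Icc_real zero_lt_one]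
  refine (LinearIndependent.of_comp (v := fun t => (g t).comp ⟨Subtype.val, continuous_subtype_val⟩)
    res ?_).cardinal_le_rank
  have e : (res ∘ fun t => (g t).comp ⟨Subtype.val, continuous_subtype_val⟩) =
      fun (t : Icc (0 : ℝ) 1) (n : ℕ) => t.1 ^ n := funext fun t => funext (hg t)
  rw [e]
  exact (linearIndependent_monoidHom (Multiplicative ℕ) ℝ).comp (fun t : Icc (0 : ℝ) 1 =>
    powersHom ℝ t.1) ((powersHom ℝ).injective.comp Subtype.val_injective)

lemma dns {κ : Type} (v : κ → ℕ → ℝ) (hv : LinearIndependent ℝ v) :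
    Dense (Submodule.span ℚ (range (flip v)) : Set (κ → ℝ)) := by
  let D := (Submodule.span ℚ (range (flip v))).topologicalClosure
  have h : (Submodule.span ℝ (range (flip v)) : Set (κ → ℝ)) ⊆ D := fun x hx => by
    induction hx using Submodule.span_induction with
    | mem x h => exact subset_closure (Submodule.subset_span h)
    | zero => exact D.zero_mem
    | add x y _ _ a b => exact D.add_mem a b
    | smul r x _ a =>
      refine (Submodule.isClosed_topologicalClosure _).closure_subset (map_mem_closure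
        (f := fun r : ℝ => r • x) (by fun_prop) (Rat.denseRange_cast r) ?_)
      rintro _ ⟨q, rfl⟩
      simp only [Rat.cast_smul_eq_qsmul]
      exact D.smul_mem q a
  refine fun x => closure_closure.le (closure_mono h (mem_closure_iff_nhds.2 fun s hs => ?_))
  rw [nhds_pi, Filter.mem_pi] at hs
  obtain ⟨I, i1, t, i2, i3⟩ := hs
  have := i1.to_subtype
  have e : (fun i : I => x i) ∈ Submodule.span ℝ (range (flip (v ∘ Subtype.val))) := by
    rw [span_flip_eq_top_iff_linearIndependent.2 (hv.comp _ Subtype.val_injective)]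
    trivial
  obtain ⟨y, y1, y2⟩ := (Submodule.map_span (LinearMap.funLeft ℝ ℝ (Subtype.val : I → κ))
    (range (flip v))).ge (show (fun i : I => x i) ∈ _ by rw [← range_comp]; exact e)
  exact ⟨y, i3 fun i hi => (show y i = x i from congrFun y2 ⟨i, hi⟩) ▸ mem_of_mem_nhds (i2 i), y1⟩

lemma emb {X Y X' Y' : Type} [TopologicalSpace X] [TopologicalSpace Y] [TopologicalSpace X']
    [TopologicalSpace Y'] {f : X → X'} {g : Y → Y'} (hf : IsEmbedding f) (hg : IsEmbedding g) :
    IsEmbedding (Sum.map f g) :=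
  (IsEmbedding.inl.comp hf).sumElim_of_separatedNhds (IsEmbedding.inr.comp hg) ⟨_, _,
    isOpen_range_inl, isOpen_range_inr, range_comp_subset_range _ _, range_comp_subset_range _ _,
    isCompl_range_inl_range_inr.disjoint⟩

lemma main : ∃ X Z : TopCat.{0}, T35Space X ∧ T35Space Z ∧ SigmaCompactSpace X ∧
    ¬ SigmaCompactSpace Z ∧ Cond X Z ∧ Cond Z X := by
  let Ω := (ℵ₁ : Cardinal.{0}).ord.ToType
  have hΩ : ∀ s : Set Ω, s.Countable → ∃ a, ∀ x ∈ s, x < a := fun s hs => by
    by_contra hc
    push Not at hc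
    have := (countable_iff_lt_aleph_one _).1 ((hs.biUnion fun x _ => ((countable_iff_lt_aleph_one
      _).2 (mk_Iio_toType_ord_lt x)).insert x).mono (s₁ := univ) fun a _ => by
        obtain ⟨x, x1, x2⟩ := hc a
        exact mem_iUnion₂.2 ⟨x, x1, x2.eq_or_lt⟩)
    simp [Ω] at this
  obtain ⟨u⟩ := Cardinal.eq.1 ((Module.Free.rank_eq_card_chooseBasisIndex ℝ C(B, ℝ)).symm.trans
    (rk.trans (show _ = #(Ω × (ℕ → ℝ)) by
      simp [Ω, mk_real, mul_eq_right aleph0_le_continuum aleph_one_le_continuum (aleph_pos 1).ne'])))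
  let e := (Module.Free.chooseBasis ℝ C(B, ℝ)).reindex u
  let v := res ∘ e
  let D := Submodule.span ℚ (range (flip v))
  obtain ⟨c, hc⟩ := exists_injective_nat D
  obtain ⟨F, f1, f2, f3⟩ := gen hΩ (Subtype.val : D → _) (dns v (e.linearIndependent.map' res
    (LinearMap.ker_eq_bot.2 resi))).denseRange_val (fun a => a ∘ c) hc.surjective_comp_right
  let L : C(B, ℝ) →ₗ[ℝ] C(D, ℝ) := ⟨⟨fun b => ⟨lin Subtype.val (e.repr b),
    continuous_finsetSum _ fun i _ => (continuous_const (y := e.repr b i)).mul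
      ((continuous_apply i).comp continuous_subtype_val)⟩, fun a b => by ext; simp⟩,
    fun a b => by ext; simp⟩
  obtain ⟨V, v1, v2⟩ := glue L (fun ⟨d, hd⟩ => by
    change Continuous[pt B, _] fun b => Finsupp.linearCombination ℝ d (e.repr b)
    let := pt B
    induction hd using Submodule.span_induction with
    | mem x h =>
      obtain ⟨n, rfl⟩ := h
      exact (ev (nn n)).congr fun b => (congrArg (· (nn n)) (e.linearCombination_repr b)).symm.trans
        (Finsupp.apply_linearCombination ℝ (LinearMap.proj n ∘ₗ res) e (e.repr b))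
    | zero => simpa using continuous_const
    | add x y _ _ a b =>
      exact (a.add b).congr fun b => by
        simp [Finsupp.linearCombination_apply, Finsupp.sum, mul_add, Finset.sum_add_distrib]
    | smul r x _ a =>
      exact (a.const_mul r).congr fun b => by
        simp [Finsupp.linearCombination_apply, Finsupp.sum, Finset.mul_sum, Rat.smul_def,
          mul_left_comm]) F (fun b hb => f2 _ (by simpa)) fun g => by
    obtain ⟨c, n, h⟩ := f3 g g.continuous
    exact ⟨e.repr.symm c, n, by simpa [L] using h⟩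
  have := v1.to_subtype
  have sc : ∀ (T : Type) [TopologicalSpace T] [Countable T], SigmaCompactSpace T := fun T _ _ =>
    ⟨iUnion_of_singleton T ▸ isSigmaCompact_iUnion_of_isCompact _ fun _ => isCompact_singleton⟩
  have := sc V
  have := sc D
  have em : IsEmbedding (Sum.map id Subtype.val : Ultrafilter ℕ ⊕ V → _ ⊕ StoneCech D) :=
    emb .id .subtypeVal
  have em' : IsEmbedding (Sum.map Subtype.val id : B ⊕ V → _ ⊕ V) := emb .subtypeVal .id
  have := em.t35Space
  have := em'.t35Space
  refine swindle (.of (Ultrafilter ℕ ⊕ V)) (.of (B ⊕ V)) (.of D) (fun h => nsc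
    (IsClosedEmbedding.inl (Y := V)).sigmaCompactSpace) ⟨pre ⟨_, em'.continuous⟩, fun y => ev _,
    fun f g h => ?_, fun g => ?_⟩ v2
  · ext (x | x)
    · exact congrFun (denseRange_pure.equalizer (f.continuous.comp continuous_inl)
        (g.continuous.comp continuous_inl) (funext fun n => congrArg (· (.inl (nn n))) h)) x
    · exact congrArg (· (.inr x)) h
  · obtain ⟨k, hk⟩ := ext (g.comp ⟨Sum.inl, continuous_inl⟩)
    refine ⟨⟨Sum.elim k (g ∘ Sum.inr), k.continuous.sumElim (g.continuous.comp continuous_inr)⟩, ?_⟩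
    ext (x | x)
    · exact hk x
    · rfl

end Pool.Agent.H.MP_188e7a
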